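import Mathlib

/-! Folding of labelled coloured graphs: a joint proof of the Kurosh and Grushko inequalities
for the kernel of a map from a free product onto a finite group. -/

namespace Pool.Agent.P.MP_29956c_gt

open scoped Classical

variable {Γ V ι Q : Type*} [Group Γ] [Group Q]

/-- The groupoid generated by a finite set of labelled edges. -/
inductive R (E : Finset (V × Γ × V)) : V → Γ → V → Prop
  | refl (u : V) : R E u 1 u
  | edge {u : V} {g : Γ} {v : V} : (u, g, v) ∈ E → R E u g v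
  | inv {u : V} {g : Γ} {v : V} : R E u g v → R E v g⁻¹ u
  | trans {u : V} {g : Γ} {v : V} {h : Γ} {w : V} : R E u g v → R E v h w → R E u (g * h) w

theorem R.cast {E : Finset (V × Γ × V)} {u v : V} {g h : Γ} (a : R E u g v) (e : g = h) :
    R E u h v := e ▸ a

theorem R.map {E E' : Finset (V × Γ × V)} (ρ : V → V) (c : V → Γ)
    (hE : ∀ e ∈ E, R E' (ρ e.1) (c e.1 * e.2.1 * (c e.2.2)⁻¹) (ρ e.2.2))
    {a b : V} {h : Γ} (r : R E a h b) : R E' (ρ a) (c a * h * (c b)⁻¹) (ρ b) := by
  induction r with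
  | refl u => exact (R.refl _).cast (by group)
  | edge he => exact hE _ he
  | inv _ ih => exact ih.inv.cast (by group)
  | trans _ _ ih1 ih2 => exact (ih1.trans ih2).cast (by group)

theorem R.mono {E E' : Finset (V × Γ × V)} (hE : ∀ e ∈ E, R E' e.1 e.2.1 e.2.2)
    {a b : V} {h : Γ} (r : R E a h b) : R E' a h b := by
  have := R.map (E' := E') id (fun _ => 1) (fun e he => (hE e he).cast (by simp)) r
  exact this.cast (by simp)

theorem R.lab {E : Finset (V × Γ × V)} {H : Subgroup Γ} (hE : ∀ e ∈ E, e.2.1 ∈ H)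
    {a b : V} {h : Γ} (r : R E a h b) : h ∈ H := by
  induction r with
  | refl u => exact H.one_mem
  | edge he => exact hE _ he
  | inv _ ih => exact H.inv_mem ih
  | trans _ _ ih1 ih2 => exact H.mul_mem ih1 ih2

theorem R.cmp {E : Finset (V × Γ × V)} {χ : Γ →* Q} {κ : V → Q}
    (hE : ∀ e ∈ E, κ e.2.2 = κ e.1 * χ e.2.1)
    {a b : V} {h : Γ} (r : R E a h b) : κ b = κ a * χ h := by
  induction r with
  | refl u => simp
  | edge he => exact hE _ he
  | inv _ ih => rw [ih]; simp
  | trans _ _ ih1 ih2 => rw [ih2, ih1]; simp [mul_assoc]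

theorem R.mem {E : Finset (V × Γ × V)} {U : Finset V} (hE : ∀ e ∈ E, e.1 ∈ U ∧ e.2.2 ∈ U)
    {a b : V} {h : Γ} (r : R E a h b) : a = b ∨ (a ∈ U ∧ b ∈ U) := by
  induction r with
  | refl u => exact Or.inl rfl
  | edge he => exact Or.inr (hE _ he)
  | inv _ ih => exact ih.imp Eq.symm And.symm
  | trans _ _ ih1 ih2 =>
    rcases ih1 with rfl | h1
    · exact ih2
    · rcases ih2 with rfl | h2
      · exact Or.inr h1
      · exact Or.inr ⟨h1.1, h2.2⟩

/-- Removing a vertex that is joined to another vertex saves one edge. -/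
theorem contract (E : Finset (V × Γ × V)) (U : Finset V) (hU : ∀ e ∈ E, e.1 ∈ U ∧ e.2.2 ∈ U)
    {u v : V} {g : Γ} (hne : u ≠ v) (r : R E u g v) :
    ∃ E' : Finset (V × Γ × V), E'.card + 1 ≤ E.card ∧
      (∀ e ∈ E', e.1 ∈ U.erase v ∧ e.2.2 ∈ U.erase v) ∧ (∀ e ∈ E', R E e.1 e.2.1 e.2.2) ∧
      ∀ a h b, a ≠ v → b ≠ v → R E a h b → R E' a h b := by
  have h0 : ∃ e ∈ E, ¬ (e.1 = v ↔ e.2.2 = v) := by
    by_contra hc
    push Not at hc
    have : ∀ {a b : V} {h : Γ}, R E a h b → (a = v ↔ b = v) := by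
      intro a b h r
      induction r with
      | refl u => exact Iff.rfl
      | edge he => exact hc _ he
      | inv _ ih => exact ih.symm
      | trans _ _ ih1 ih2 => exact ih1.trans ih2
    exact hne ((this r).2 rfl)
  obtain ⟨e0, he0, hx⟩ := h0
  obtain ⟨w, c0, hwv, hwU, hR, h1, h2⟩ : ∃ (w : V) (c0 : Γ), w ≠ v ∧ w ∈ U ∧ R E w c0 v ∧
      (if e0.1 = v then w else e0.1) = (if e0.2.2 = v then w else e0.2.2) ∧
      (if e0.1 = v then c0 else 1) * e0.2.1 * (if e0.2.2 = v then c0 else 1)⁻¹ = 1 := by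
    obtain ⟨a, g0, b⟩ := e0
    by_cases ha : a = v
    · have hb : b ≠ v := fun hb => hx (by simp [ha, hb])
      subst ha
      exact ⟨b, g0⁻¹, hb, (hU _ he0).2, (R.edge he0).inv, by simp [hb], by simp [hb]⟩
    · have hb : b = v := by
        by_contra hb
        exact hx (by simp [ha, hb])
      subst hb
      exact ⟨a, g0, ha, (hU _ he0).1, R.edge he0, by simp [ha], by simp [ha]⟩
  let σ : V → V := fun x => if x = v then w else x
  let c : V → Γ := fun x => if x = v then c0 else 1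
  have hσ : ∀ x, R E (σ x) (c x) x := by
    intro x
    by_cases hx : x = v
    · simp only [σ, c, hx, if_true]; exact hR
    · simp only [σ, c, hx, if_false]; exact R.refl _
  have hσU : ∀ x ∈ U, σ x ∈ U.erase v := by
    intro x hxU
    by_cases hx : x = v
    · simp only [σ, hx, if_true]; exact Finset.mem_erase.2 ⟨hwv, hwU⟩
    · simp only [σ, hx, if_false]; exact Finset.mem_erase.2 ⟨hx, hxU⟩
  let f : V × Γ × V → V × Γ × V := fun e => (σ e.1, c e.1 * e.2.1 * (c e.2.2)⁻¹, σ e.2.2)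
  refine ⟨(E.erase e0).image f, ?_, ?_, ?_, ?_⟩
  · have h3 := Finset.card_image_le (s := E.erase e0) (f := f)
    have h4 := Finset.card_erase_add_one he0
    omega
  · intro e he
    obtain ⟨e', he', rfl⟩ := Finset.mem_image.1 he
    have := hU _ (Finset.mem_of_mem_erase he')
    exact ⟨hσU _ this.1, hσU _ this.2⟩
  · intro e he
    obtain ⟨e', he', rfl⟩ := Finset.mem_image.1 he
    exact ((hσ _).trans (R.edge (Finset.mem_of_mem_erase he'))).trans (hσ _).inv
  · intro a h b ha hb r
    have := R.map (E' := (E.erase e0).image f) σ c (fun e he => by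
      by_cases hee : e = e0
      · subst hee
        have h1' : σ e.1 = σ e.2.2 := h1
        have h2' : c e.1 * e.2.1 * (c e.2.2)⁻¹ = 1 := h2
        rw [h1', h2']
        exact R.refl _
      · exact R.edge (Finset.mem_image.2 ⟨e, Finset.mem_erase.2 ⟨hee, he⟩, rfl⟩)) r
    simp only [σ, c, ha, hb, if_false] at this
    exact this.cast (by simp)

/-- Collapsing onto a set of vertices that meets every component. -/
theorem collapse (T : Finset V) (n : ℕ) : ∀ (E : Finset (V × Γ × V)) (U : Finset V),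
    U.card = n → T ⊆ U → (∀ e ∈ E, e.1 ∈ U ∧ e.2.2 ∈ U) → (∀ v ∈ U, ∃ t ∈ T, ∃ g, R E t g v) →
    ∃ E' : Finset (V × Γ × V), E'.card + U.card ≤ E.card + T.card ∧
      (∀ e ∈ E', e.1 ∈ T ∧ e.2.2 ∈ T) ∧ (∀ e ∈ E', R E e.1 e.2.1 e.2.2) ∧
      ∀ a h b, a ∈ T → b ∈ T → R E a h b → R E' a h b := by
  induction n using Nat.strong_induction_on with
  | _ n ih =>
  intro E U hn hT hU hc
  by_cases hUT : U ⊆ T
  · have : U = T := Finset.Subset.antisymm hUT hT
    subst this
    exact ⟨E, le_rfl, hU, fun e he => R.edge he, fun a h b _ _ r => r⟩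
  · obtain ⟨v, hvU, hvT⟩ := Finset.not_subset.1 hUT
    obtain ⟨t, ht, g, r⟩ := hc v hvU
    have hne : ∀ t ∈ T, t ≠ v := fun t ht h => hvT (h ▸ ht)
    obtain ⟨E1, c1, m1, s1, k1⟩ := contract E U hU (hne t ht) r
    have h4 := Finset.card_erase_add_one hvU
    obtain ⟨E2, c2, m2, s2, k2⟩ := ih (U.erase v).card (by omega) E1 (U.erase v) rfl
      (fun t ht => Finset.mem_erase.2 ⟨hne t ht, hT ht⟩) m1 (by
        intro x hx
        obtain ⟨hx1, hx2⟩ := Finset.mem_erase.1 hx
        obtain ⟨t, ht, g, r⟩ := hc x hx2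
        exact ⟨t, ht, g, k1 _ _ _ (hne t ht) hx1 r⟩)
    exact ⟨E2, by omega, m2, fun e he => R.mono s1 (s2 e he),
      fun a h b ha hb r => k2 _ _ _ ha hb (k1 _ _ _ (hne a ha) (hne b hb) r)⟩

/-- Paths in a coloured graph. -/
inductive Path (S : ι → Finset (V × Γ × V)) : V → Γ → V → Prop
  | nil (u : V) : Path S u 1 u
  | cons {i : ι} {u : V} {g : Γ} {w : V} {γ : Γ} {v : V} :
      R (S i) u g w → Path S w γ v → Path S u (g * γ) v

theorem Path.cast {S : ι → Finset (V × Γ × V)} {u v : V} {g h : Γ} (a : Path S u g v)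
    (e : g = h) : Path S u h v := e ▸ a

theorem Path.single {S : ι → Finset (V × Γ × V)} {i : ι} {u v : V} {g : Γ}
    (r : R (S i) u g v) : Path S u g v := (Path.cons r (Path.nil v)).cast (mul_one g)

theorem Path.trans {S : ι → Finset (V × Γ × V)} {u v w : V} {g h : Γ}
    (p : Path S u g v) (q : Path S v h w) : Path S u (g * h) w := by
  induction p with
  | nil u => exact q.cast (one_mul h).symm
  | cons r _ ih => exact (Path.cons r (ih q)).cast (mul_assoc _ _ _).symm

theorem Path.inv {S : ι → Finset (V × Γ × V)} {u v : V} {g : Γ}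
    (p : Path S u g v) : Path S v g⁻¹ u := by
  induction p with
  | nil u => exact (Path.nil u).cast inv_one.symm
  | cons r _ ih => exact (ih.trans (Path.single r.inv)).cast (mul_inv_rev _ _).symm

theorem Path.map {S S' : ι → Finset (V × Γ × V)} (ρ : V → V)
    (h : ∀ i a g b, R (S i) a g b → R (S' i) (ρ a) g (ρ b)) {u v : V} {g : Γ}
    (p : Path S u g v) : Path S' (ρ u) g (ρ v) := by
  induction p with
  | nil u => exact Path.nil _
  | cons r _ ih => exact Path.cons (h _ _ _ _ r) ih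

theorem Path.mono {S S' : ι → Finset (V × Γ × V)} (h : ∀ i, S i ⊆ S' i) {u v : V} {g : Γ}
    (p : Path S u g v) : Path S' u g v :=
  Path.map id (fun i _ _ _ r => R.mono (fun e he => R.edge (h i he)) r) p

/-- A well formed coloured graph over `χ`. -/
structure St (H : ι → Subgroup Γ) (χ : Γ →* Q) (κ : V → Q) (U : Finset V)
    (S : ι → Finset (V × Γ × V)) : Prop where
  mem : ∀ i, ∀ e ∈ S i, e.1 ∈ U ∧ e.2.2 ∈ U
  lab : ∀ i, ∀ e ∈ S i, e.2.1 ∈ H i
  cmp : ∀ i, ∀ e ∈ S i, κ e.2.2 = κ e.1 * χ e.2.1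

theorem Path.cmp {H : ι → Subgroup Γ} {χ : Γ →* Q} {κ : V → Q} {U : Finset V}
    {S : ι → Finset (V × Γ × V)} (st : St H χ κ U S) {u v : V} {g : Γ} (p : Path S u g v) :
    κ v = κ u * χ g := by
  induction p with
  | nil u => simp
  | cons r _ ih => rw [ih, R.cmp (st.cmp _) r]; simp [mul_assoc]

/-- Every label allowed by `χ` is the label of a path, and all of `Q` is hit. -/
structure Tot (χ : Γ →* Q) (κ : V → Q) (U : Finset V) (S : ι → Finset (V × Γ × V)) : Prop where
  tot : ∀ u ∈ U, ∀ v ∈ U, ∀ γ, κ v = κ u * χ γ → Path S u γ v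
  sur : ∀ q, ∃ u ∈ U, κ u = q

theorem fold [Fintype ι] {H : ι → Subgroup Γ} {χ : Γ →* Q} {κ : V → Q} {U : Finset V}
    {S : ι → Finset (V × Γ × V)} (st : St H χ κ U S) (tt : Tot χ κ U S)
    {i : ι} {u v : V} (hne : u ≠ v) (r : R (S i) u 1 v) :
    v ∈ U ∧ ∃ S' : ι → Finset (V × Γ × V), St H χ κ (U.erase v) S' ∧ Tot χ κ (U.erase v) S' ∧
      ∑ j, (S' j).card + 1 ≤ ∑ j, (S j).card := by
  obtain ⟨huU, hvU⟩ := (R.mem (st.mem i) r).resolve_left hne
  have hκ : κ v = κ u := by simpa using R.cmp (st.cmp i) r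
  obtain ⟨E1, c1, m1, s1, k1⟩ := contract (S i) U (st.mem i) hne r
  let ρ : V → V := fun x => if x = v then u else x
  have hρv : ∀ x, ρ x ≠ v := by
    intro x
    by_cases hx : x = v
    · simp only [ρ, hx, if_true]; exact hne
    · simp only [ρ, hx, if_false]; exact hx
  have hρU : ∀ x ∈ U, ρ x ∈ U.erase v := by
    intro x hxU
    refine Finset.mem_erase.2 ⟨hρv x, ?_⟩
    by_cases hx : x = v
    · simp only [ρ, hx, if_true]; exact huU
    · simp only [ρ, hx, if_false]; exact hxU
  have hρκ : ∀ x, κ (ρ x) = κ x := by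
    intro x
    by_cases hx : x = v
    · simp only [ρ, hx, if_true]; exact hκ.symm
    · simp only [ρ, hx, if_false]
  have hρR : ∀ x, R (S i) (ρ x) 1 x := by
    intro x
    by_cases hx : x = v
    · simp only [ρ, hx, if_true]; exact r
    · simp only [ρ, hx, if_false]; exact R.refl _
  let f : V × Γ × V → V × Γ × V := fun e => (ρ e.1, e.2.1, ρ e.2.2)
  let S' : ι → Finset (V × Γ × V) := fun j => if j = i then E1 else (S j).image f
  have hi : S' i = E1 := by simp [S']
  have hj : ∀ j, j ≠ i → S' j = (S j).image f := fun j h => by simp [S', h]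
  refine ⟨hvU, S', ⟨?_, ?_, ?_⟩, ⟨?_, ?_⟩, ?_⟩
  · intro j e he
    by_cases h : j = i
    · subst h; rw [hi] at he; exact m1 e he
    · rw [hj j h] at he
      obtain ⟨e', he', rfl⟩ := Finset.mem_image.1 he
      exact ⟨hρU _ (st.mem j _ he').1, hρU _ (st.mem j _ he').2⟩
  · intro j e he
    by_cases h : j = i
    · subst h; rw [hi] at he; exact R.lab (st.lab j) (s1 e he)
    · rw [hj j h] at he
      obtain ⟨e', he', rfl⟩ := Finset.mem_image.1 he
      exact st.lab j e' he'
  · intro j e he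
    by_cases h : j = i
    · subst h; rw [hi] at he; exact R.cmp (st.cmp j) (s1 e he)
    · rw [hj j h] at he
      obtain ⟨e', he', rfl⟩ := Finset.mem_image.1 he
      simp only [f, hρκ]
      exact st.cmp j e' he'
  · intro a ha b hb γ hγ
    obtain ⟨ha1, ha2⟩ := Finset.mem_erase.1 ha
    obtain ⟨hb1, hb2⟩ := Finset.mem_erase.1 hb
    have := Path.map (S' := S') ρ (by
      intro j x g y rr
      by_cases h : j = i
      · subst h
        rw [hi]
        exact k1 _ _ _ (hρv x) (hρv y) ((((hρR x).trans rr).trans (hρR y).inv).cast (by simp))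
      · rw [hj j h]
        have := R.map (E' := (S j).image f) ρ (fun _ => 1)
          (fun e he => (R.edge (g := e.2.1) (Finset.mem_image.2 ⟨e, he, rfl⟩)).cast (by simp)) rr
        exact this.cast (by simp)) (tt.tot a ha2 b hb2 γ hγ)
    simpa only [ρ, ha1, hb1, if_false] using this
  · intro q
    obtain ⟨x, hx, rfl⟩ := tt.sur q
    exact ⟨ρ x, hρU x hx, hρκ x⟩
  · rw [← Finset.add_sum_erase _ _ (Finset.mem_univ i), ← Finset.add_sum_erase _ (fun j => (S j).card)
      (Finset.mem_univ i), hi]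
    have : ∑ j ∈ Finset.univ.erase i, (S' j).card ≤ ∑ j ∈ Finset.univ.erase i, (S j).card := by
      refine Finset.sum_le_sum fun j h => ?_
      rw [hj j (Finset.mem_erase.1 h).1]
      exact Finset.card_image_le
    omega

theorem fold_all [Fintype ι] {H : ι → Subgroup Γ} {χ : Γ →* Q} {κ : V → Q} (d n : ℕ) :
    ∀ (U : Finset V) (S : ι → Finset (V × Γ × V)), U.card = n → St H χ κ U S → Tot χ κ U S →
      ∑ j, (S j).card + 1 ≤ d + U.card →
      ∃ (U : Finset V) (S : ι → Finset (V × Γ × V)), St H χ κ U S ∧ Tot χ κ U S ∧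
        ∑ j, (S j).card + 1 ≤ d + U.card ∧ ∀ i u v, R (S i) u 1 v → u = v := by
  induction n using Nat.strong_induction_on with
  | _ n ih =>
  intro U S hn st tt hc
  by_cases h : ∀ i u v, R (S i) u 1 v → u = v
  · exact ⟨U, S, st, tt, hc, h⟩
  · push Not at h
    obtain ⟨i, u, v, r, hne⟩ := h
    obtain ⟨hv, S', st', tt', hc'⟩ := fold st tt hne r
    have h4 := Finset.card_erase_add_one hv
    exact ih (U.erase v).card (by omega) _ S' rfl st' tt' (by omega)

end Pool.Agent.P.MP_29956c_gt
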