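import Pool.Agent.P.MP_29956c_gt.Fold

namespace Pool.Agent.P.MP_29956c_gt

open scoped Classical

variable {Γ V ι Q : Type*} [Group Γ] [Group Q]

/-- Products of nonempty reduced words, with the colour of the first letter. -/
inductive Red (H : ι → Subgroup Γ) : ι → Γ → Prop
  | one {i : ι} {g : Γ} : g ∈ H i → g ≠ 1 → Red H i g
  | cons {i j : ι} {g γ : Γ} : g ∈ H i → g ≠ 1 → i ≠ j → Red H j γ → Red H i (g * γ)

/-- Nonempty reduced paths, with the colour of the first letter. -/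
inductive RP (S : ι → Finset (V × Γ × V)) : ι → V → Γ → V → Prop
  | one {i : ι} {u : V} {g : Γ} {v : V} : R (S i) u g v → g ≠ 1 → RP S i u g v
  | cons {i j : ι} {u : V} {g : Γ} {w : V} {γ : Γ} {v : V} :
      R (S i) u g w → g ≠ 1 → i ≠ j → RP S j w γ v → RP S i u (g * γ) v

theorem RP.red {H : ι → Subgroup Γ} {S : ι → Finset (V × Γ × V)}
    (hl : ∀ i, ∀ e ∈ S i, e.2.1 ∈ H i) {i : ι} {u v : V} {g : Γ} (p : RP S i u g v) :
    Red H i g := by
  induction p with
  | one r h => exact Red.one (R.lab (hl _) r) h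
  | cons r h hij _ ih => exact Red.cons (R.lab (hl _) r) h hij ih

theorem Path.reduce {S : ι → Finset (V × Γ × V)} (nt : ∀ i u v, R (S i) u 1 v → u = v)
    {u v : V} {g : Γ} (p : Path S u g v) : (u = v ∧ g = 1) ∨ ∃ i, RP S i u g v := by
  induction p with
  | nil u => exact Or.inl ⟨rfl, rfl⟩
  | @cons i u g w γ v r _ ih =>
    by_cases hg : g = 1
    · subst hg
      rw [nt _ _ _ r, one_mul]
      exact ih
    rcases ih with ⟨rfl, rfl⟩ | ⟨j, q⟩
    · exact Or.inr ⟨i, by rw [mul_one]; exact RP.one r hg⟩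
    by_cases hij : i = j
    · subst hij
      cases q with
      | one r' h' =>
        by_cases h1 : g * γ = 1
        · exact Or.inl ⟨nt _ _ _ ((r.trans r').cast h1), h1⟩
        · exact Or.inr ⟨i, RP.one (r.trans r') h1⟩
      | @cons _ k _ g' w' γ' _ r' h' hik q' =>
        by_cases h1 : g * g' = 1
        · rw [nt _ _ _ ((r.trans r').cast h1), ← mul_assoc, h1, one_mul]
          exact Or.inr ⟨k, q'⟩
        · rw [← mul_assoc]
          exact Or.inr ⟨i, RP.cons (r.trans r') h1 hik q'⟩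
    · exact Or.inr ⟨i, RP.cons r hg hij q⟩

theorem Red.not_mem {H : ι → Subgroup Γ} (nf : ∀ i γ, Red H i γ → γ ≠ 1) {i j : ι} {γ : Γ}
    (h : Red H j γ) (hij : i ≠ j) : γ ∉ H i := by
  intro hm
  have h1 := nf _ _ h
  exact nf i _ (Red.cons (H i |>.inv_mem hm) (inv_ne_one.2 h1) hij h) (inv_mul_cancel γ)

theorem Path.toR {H : ι → Subgroup Γ} (nf : ∀ i γ, Red H i γ → γ ≠ 1)
    {S : ι → Finset (V × Γ × V)} (hl : ∀ i, ∀ e ∈ S i, e.2.1 ∈ H i)
    (nt : ∀ i u v, R (S i) u 1 v → u = v) {i : ι} {u v : V} {g : Γ} (p : Path S u g v)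
    (hg : g ∈ H i) : R (S i) u g v := by
  rcases p.reduce nt with ⟨rfl, rfl⟩ | ⟨j, q⟩
  · exact R.refl _
  by_cases hij : i = j
  · subst hij
    cases q with
    | one r _ => exact r
    | @cons _ k _ g' w' γ' _ r' h' hik q' =>
      exfalso
      refine (q'.red hl).not_mem nf hik ?_
      have := (H i).mul_mem ((H i).inv_mem (R.lab (hl i) r')) hg
      simpa using this
  · exact absurd hg ((q.red hl).not_mem nf hij)

/-- A tree grown from the base vertex. -/
structure Tr [Fintype ι] (H : ι → Subgroup Γ) (χ : Γ →* Q) (U : Finset (Q × ℕ))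
    (S : ι → Finset ((Q × ℕ) × Γ × (Q × ℕ))) : Prop where
  st : St H χ Prod.fst U S
  base : ((1 : Q), 0) ∈ U
  con : ∀ u ∈ U, ∃ γ, Path S ((1 : Q), 0) γ u
  card : ∑ i, (S i).card + 1 ≤ U.card

theorem grow [Fintype ι] {H : ι → Subgroup Γ} (hgen : ⨆ i, H i = ⊤) (χ : Γ →* Q) (γ : Γ) :
    ∀ U S, Tr H χ U S → ∀ u ∈ U, ∃ U' S', Tr H χ U' S' ∧ U ⊆ U' ∧ (∀ i, S i ⊆ S' i) ∧
      ∃ v ∈ U', Path S' u γ v := by
  have hγ : γ ∈ ⨆ i, H i := hgen ▸ Subgroup.mem_top γ
  induction hγ using Subgroup.iSup_induction' with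
  | hp i g hg =>
    intro U S t u hu
    obtain ⟨n, hn⟩ := Infinite.exists_notMem_finset (U.image Prod.snd)
    let v : Q × ℕ := (u.1 * χ g, n)
    have hv : v ∉ U := fun h => hn (Finset.mem_image.2 ⟨v, h, rfl⟩)
    let S' : ι → Finset ((Q × ℕ) × Γ × (Q × ℕ)) :=
      fun j => if j = i then insert (u, g, v) (S j) else S j
    have hi : S' i = insert (u, g, v) (S i) := by simp [S']
    have hj : ∀ j, j ≠ i → S' j = S j := fun j h => by simp [S', h]
    have hsub : ∀ j, S j ⊆ S' j := by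
      intro j
      by_cases h : j = i
      · subst h; rw [hi]; exact Finset.subset_insert _ _
      · rw [hj j h]
    have hcase : ∀ j, ∀ e ∈ S' j, e ∈ S j ∨ (j = i ∧ e = (u, g, v)) := by
      intro j e he
      by_cases h : j = i
      · subst h; rw [hi] at he
        rcases Finset.mem_insert.1 he with h | h
        · exact Or.inr ⟨rfl, h⟩
        · exact Or.inl h
      · rw [hj j h] at he; exact Or.inl he
    have hp : Path S' u g v := Path.single (i := i) (R.edge (by rw [hi]; simp))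
    refine ⟨insert v U, S', ⟨⟨?_, ?_, ?_⟩, Finset.mem_insert_of_mem t.base, ?_, ?_⟩,
      Finset.subset_insert _ _, hsub, v, Finset.mem_insert_self _ _, hp⟩
    · intro j e he
      rcases hcase j e he with h | ⟨_, rfl⟩
      · exact ⟨Finset.mem_insert_of_mem (t.st.mem j e h).1,
          Finset.mem_insert_of_mem (t.st.mem j e h).2⟩
      · exact ⟨Finset.mem_insert_of_mem hu, Finset.mem_insert_self _ _⟩
    · intro j e he
      rcases hcase j e he with h | ⟨rfl, rfl⟩
      · exact t.st.lab j e h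
      · exact hg
    · intro j e he
      rcases hcase j e he with h | ⟨rfl, rfl⟩
      · exact t.st.cmp j e h
      · rfl
    · intro x hx
      rcases Finset.mem_insert.1 hx with rfl | hx
      · obtain ⟨γ, p⟩ := t.con u hu
        exact ⟨_, (p.mono hsub).trans hp⟩
      · obtain ⟨γ, p⟩ := t.con x hx
        exact ⟨_, p.mono hsub⟩
    · have h1 := t.card
      rw [Finset.card_insert_of_notMem hv]
      rw [← Finset.add_sum_erase _ _ (Finset.mem_univ i)] at h1 ⊢
      have h2 : ∑ j ∈ Finset.univ.erase i, (S' j).card = ∑ j ∈ Finset.univ.erase i, (S j).card :=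
        Finset.sum_congr rfl fun j h => by rw [hj j (Finset.mem_erase.1 h).1]
      have h3 := Finset.card_insert_le (u, g, v) (S i)
      rw [h2, hi]
      omega
  | h1 =>
    intro U S t u hu
    exact ⟨U, S, t, subset_rfl, fun _ => subset_rfl, u, hu, Path.nil u⟩
  | hmul x y _ _ ihx ihy =>
    intro U S t u hu
    obtain ⟨U1, S1, t1, h1, k1, v, hv, p⟩ := ihx U S t u hu
    obtain ⟨U2, S2, t2, h2, k2, w, hw, q⟩ := ihy U1 S1 t1 v hv
    exact ⟨U2, S2, t2, h1.trans h2, fun i => (k1 i).trans (k2 i), w, hw, (p.mono k2).trans q⟩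

theorem grow_all [Fintype ι] {H : ι → Subgroup Γ} (hgen : ⨆ i, H i = ⊤) (χ : Γ →* Q)
    (Z : Finset Γ) : ∃ U S, Tr H χ U S ∧ ∀ x ∈ Z, ∃ v ∈ U, Path S ((1 : Q), 0) x v := by
  induction Z using Finset.induction_on with
  | empty =>
    refine ⟨{((1 : Q), 0)}, fun _ => ∅, ⟨⟨by simp, by simp, by simp⟩, by simp, ?_, by simp⟩, by simp⟩
    intro u hu
    rw [Finset.mem_singleton.1 hu]
    exact ⟨1, Path.nil _⟩
  | insert a Z _ ih =>
    obtain ⟨U, S, t, h⟩ := ih
    obtain ⟨U', S', t', h1, h2, v, hv, p⟩ := grow hgen χ a U S t _ t.base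
    refine ⟨U', S', t', fun x hx => ?_⟩
    rcases Finset.mem_insert.1 hx with rfl | hx
    · exact ⟨v, hv, p⟩
    · obtain ⟨w, hw, q⟩ := h x hx
      exact ⟨w, h1 hw, q.mono h2⟩

theorem start [Fintype ι] [Nonempty ι] [Finite Q] {H : ι → Subgroup Γ} (hgen : ⨆ i, H i = ⊤)
    (χ : Γ →* Q) (hχ : Function.Surjective χ) (X : Finset Γ)
    (hX : Subgroup.closure (X : Set Γ) = χ.ker) :
    ∃ (U : Finset (Q × ℕ)) (S : ι → Finset ((Q × ℕ) × Γ × (Q × ℕ))),
      St H χ Prod.fst U S ∧ Tot χ Prod.fst U S ∧ ∑ j, (S j).card + 1 ≤ X.card + U.card := by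
  haveI := Fintype.ofFinite Q
  obtain ⟨s, hs⟩ := hχ.hasRightInverse
  obtain ⟨U, S, t, h⟩ := grow_all hgen χ (X ∪ Finset.univ.image s)
  obtain ⟨i⟩ := ‹Nonempty ι›
  have hx : ∀ x : X, ∃ v ∈ U, Path S ((1 : Q), 0) x v :=
    fun x => h x (Finset.mem_union_left _ x.2)
  choose w hw pw using hx
  have hw1 : ∀ x : X, (w x).1 = 1 := by
    intro x
    have h1 := (pw x).cmp t.st
    have h2 : (x : Γ) ∈ χ.ker := hX ▸ Subgroup.subset_closure x.2
    rw [h1, MonoidHom.mem_ker.1 h2]; simp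
  let N : Finset ((Q × ℕ) × Γ × (Q × ℕ)) := Finset.univ.image fun x : X => (w x, 1, ((1 : Q), 0))
  let S' : ι → Finset ((Q × ℕ) × Γ × (Q × ℕ)) := fun j => if j = i then S j ∪ N else S j
  have hi : S' i = S i ∪ N := by simp [S']
  have hj : ∀ j, j ≠ i → S' j = S j := fun j h => by simp [S', h]
  have hsub : ∀ j, S j ⊆ S' j := by
    intro j
    by_cases h : j = i
    · subst h; rw [hi]; exact Finset.subset_union_left
    · rw [hj j h]
  have hcase : ∀ j, ∀ e ∈ S' j, e ∈ S j ∨ ∃ x : X, e = (w x, 1, ((1 : Q), 0)) := by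
    intro j e he
    by_cases h : j = i
    · subst h; rw [hi] at he
      rcases Finset.mem_union.1 he with h | h
      · exact Or.inl h
      · obtain ⟨x, _, rfl⟩ := Finset.mem_image.1 h
        exact Or.inr ⟨x, rfl⟩
    · rw [hj j h] at he; exact Or.inl he
  have st : St H χ Prod.fst U S' := by
    refine ⟨fun j e he => ?_, fun j e he => ?_, fun j e he => ?_⟩
    · rcases hcase j e he with h | ⟨x, rfl⟩
      · exact t.st.mem j e h
      · exact ⟨hw x, t.base⟩
    · rcases hcase j e he with h | ⟨x, rfl⟩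
      · exact t.st.lab j e h
      · exact (H j).one_mem
    · rcases hcase j e he with h | ⟨x, rfl⟩
      · exact t.st.cmp j e h
      · simp [hw1]
  have hK : ∀ k ∈ χ.ker, Path S' ((1 : Q), 0) k ((1 : Q), 0) := by
    intro k hk
    rw [← hX] at hk
    induction hk using Subgroup.closure_induction with
    | mem x hx =>
      have r : R (S' i) (w ⟨x, hx⟩) 1 ((1 : Q), 0) := R.edge (by
        rw [hi]
        exact Finset.mem_union_right _ (Finset.mem_image.2 ⟨⟨x, hx⟩, Finset.mem_univ _, rfl⟩))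
      exact (((pw ⟨x, hx⟩).mono hsub).trans (Path.single r)).cast (mul_one _)
    | one => exact Path.nil _
    | mul x y _ _ p q => exact p.trans q
    | inv x _ p => exact p.inv
  refine ⟨U, S', st, ⟨fun u hu v hv γ hγ => ?_, fun q => ?_⟩, ?_⟩
  · obtain ⟨a, pa⟩ := t.con u hu
    obtain ⟨b, pb⟩ := t.con v hv
    have ha := pa.cmp t.st
    have hb := pb.cmp t.st
    have hk : a * γ * b⁻¹ ∈ χ.ker := by
      rw [MonoidHom.mem_ker, map_mul, map_mul, map_inv]
      simp only [one_mul] at ha hb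
      rw [← ha, ← hb, hγ]; simp
    exact (((pa.mono hsub).inv.trans (hK _ hk)).trans (pb.mono hsub)).cast (by group)
  · obtain ⟨v, hv, p⟩ := h (s q) (Finset.mem_union_right _
      (Finset.mem_image.2 ⟨q, Finset.mem_univ _, rfl⟩))
    refine ⟨v, hv, ?_⟩
    have := p.cmp t.st
    rw [this, hs q]; simp
  · have h1 := t.card
    rw [← Finset.add_sum_erase _ _ (Finset.mem_univ i)] at h1 ⊢
    have h2 : ∑ j ∈ Finset.univ.erase i, (S' j).card = ∑ j ∈ Finset.univ.erase i, (S j).card :=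
      Finset.sum_congr rfl fun j h => by rw [hj j (Finset.mem_erase.1 h).1]
    have h3 := Finset.card_union_le (S i) N
    have h4 : N.card ≤ X.card := Finset.card_image_le.trans (by simp)
    rw [h2, hi]
    omega

theorem one_colour [Finite Q] (H : Subgroup Γ) (χ : Γ →* Q) (κ : V → Q) (U : Finset V)
    (E : Finset (V × Γ × V)) (hm : ∀ e ∈ E, e.1 ∈ U ∧ e.2.2 ∈ U) (hl : ∀ e ∈ E, e.2.1 ∈ H)
    (hc : ∀ e ∈ E, κ e.2.2 = κ e.1 * χ e.2.1) (hs : ∀ q, ∃ u ∈ U, κ u = q)
    (hf : ∀ u ∈ U, ∀ v ∈ U, ∀ g ∈ H, κ v = κ u * χ g → R E u g v) :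
    ∃ Y : Finset Γ, Subgroup.closure (Y : Set Γ) = H ⊓ χ.ker ∧
      (H.map χ).index * Y.card + U.card ≤ E.card + (H.map χ).index := by
  set L := H.map χ with hL
  haveI := Fintype.ofFinite (Q ⧸ L)
  have h0 : ∀ c : Q ⧸ L, ∃ u ∈ U, (QuotientGroup.mk (κ u) : Q ⧸ L) = c := by
    intro c
    obtain ⟨q, rfl⟩ := QuotientGroup.mk_surjective c
    obtain ⟨u, hu, rfl⟩ := hs q
    exact ⟨u, hu, rfl⟩
  choose f hfU hfc using h0
  have hinj : Function.Injective f := fun a b h => by rw [← hfc a, ← hfc b, h]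
  let T : Finset V := Finset.univ.image f
  have hT : T.card = L.index := by
    rw [Finset.card_image_of_injective _ hinj, Subgroup.index, Nat.card_eq_fintype_card]; rfl
  have hTU : T ⊆ U := by
    intro t ht
    obtain ⟨c, _, rfl⟩ := Finset.mem_image.1 ht
    exact hfU c
  obtain ⟨E', c1, m1, s1, k1⟩ := collapse T _ E U rfl hTU hm (by
    intro v hv
    have h1 := QuotientGroup.eq.1 (hfc (QuotientGroup.mk (κ v)))
    obtain ⟨g, hg, hg'⟩ := Subgroup.mem_map.1 h1
    exact ⟨f _, Finset.mem_image.2 ⟨_, Finset.mem_univ _, rfl⟩, g,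
      hf _ (hfU _) v hv g hg (by rw [hg', mul_inv_cancel_left])⟩)
  have hloop : ∀ e ∈ E', e.1 = e.2.2 ∧ e.2.1 ∈ H ⊓ χ.ker := by
    intro e he
    have h1 := R.lab hl (s1 e he)
    have h2 := R.cmp hc (s1 e he)
    obtain ⟨a, _, ha⟩ := Finset.mem_image.1 (m1 e he).1
    obtain ⟨b, _, hb⟩ := Finset.mem_image.1 (m1 e he).2
    have h3 : a = b := by
      rw [← hfc a, ← hfc b, ha, hb, QuotientGroup.eq, h2]
      rw [inv_mul_cancel_left]
      exact Subgroup.mem_map_of_mem χ h1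
    have h4 : e.1 = e.2.2 := by rw [← ha, ← hb, h3]
    refine ⟨h4, h1, ?_⟩
    rw [← h4] at h2
    simpa using h2
  let F : V → Finset (V × Γ × V) := fun t => E'.filter fun e => e.1 = t
  have hne : T.Nonempty := ⟨f (QuotientGroup.mk 1), Finset.mem_image.2 ⟨_, Finset.mem_univ _, rfl⟩⟩
  obtain ⟨t, ht, hmin⟩ := Finset.exists_min_image T (fun t => (F t).card) hne
  have hsum : E'.card = ∑ t ∈ T, (F t).card :=
    Finset.card_eq_sum_card_fiberwise fun e he => (m1 e he).1
  have hle : T.card * (F t).card ≤ E'.card := by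
    rw [hsum, ← smul_eq_mul]
    exact Finset.card_nsmul_le_sum T _ _ hmin
  refine ⟨(F t).image fun e => e.2.1, le_antisymm ?_ ?_, ?_⟩
  · rw [Subgroup.closure_le]
    intro g hg
    obtain ⟨e, he, rfl⟩ := Finset.mem_image.1 (Finset.mem_coe.1 hg)
    exact (hloop e (Finset.mem_filter.1 he).1).2
  · intro g hg
    have r : R E' t g t := k1 _ _ _ ht ht (hf t (hTU ht) t (hTU ht) g hg.1 (by
      rw [MonoidHom.mem_ker.1 hg.2, mul_one]))
    have : ∀ {a b : V} {h : Γ}, R E' a h b → a = b ∧ h ∈ Subgroup.closure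
        (((F a).image fun e => e.2.1 : Finset Γ) : Set Γ) := by
      intro a b h r
      induction r with
      | refl u => exact ⟨rfl, Subgroup.one_mem _⟩
      | edge he =>
        exact ⟨(hloop _ he).1, Subgroup.subset_closure (Finset.mem_coe.2
          (Finset.mem_image.2 ⟨_, Finset.mem_filter.2 ⟨he, rfl⟩, rfl⟩))⟩
      | inv _ ih => obtain ⟨rfl, h⟩ := ih; exact ⟨rfl, Subgroup.inv_mem _ h⟩
      | trans _ _ ih1 ih2 =>
        obtain ⟨rfl, h1⟩ := ih1
        obtain ⟨rfl, h2⟩ := ih2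
        exact ⟨rfl, Subgroup.mul_mem _ h1 h2⟩
    exact (this r).2
  · have h5 : ((F t).image fun e => e.2.1).card ≤ (F t).card := Finset.card_image_le
    have h6 := Nat.mul_le_mul_left T.card h5
    rw [← hT]
    omega

/-- The joint Kurosh and Grushko inequality. -/
theorem kurosh_grushko [Fintype ι] [Nonempty ι] [Finite Q] (H : ι → Subgroup Γ)
    (nf : ∀ i γ, Red H i γ → γ ≠ 1) (hgen : ⨆ i, H i = ⊤)
    (χ : Γ →* Q) (hχ : Function.Surjective χ) (X : Finset Γ)
    (hX : Subgroup.closure (X : Set Γ) = χ.ker) :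
    ∃ Y : ι → Finset Γ, (∀ i, Subgroup.closure (Y i : Set Γ) = H i ⊓ χ.ker) ∧
      ∑ i, (((H i).map χ).index * (Y i).card + Nat.card Q) + 1 ≤
        X.card + Nat.card Q + ∑ i, ((H i).map χ).index := by
  obtain ⟨U0, S0, st0, tt0, hc0⟩ := start hgen χ hχ X hX
  obtain ⟨U, S, st, tt, hc, nt⟩ := fold_all X.card _ U0 S0 rfl st0 tt0 hc0
  have hf : ∀ i, ∀ u ∈ U, ∀ v ∈ U, ∀ g ∈ H i, v.1 = u.1 * χ g → R (S i) u g v :=
    fun i u hu v hv g hg h => (tt.tot u hu v hv g h).toR nf st.lab nt hg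
  have hU : U.card = Nat.card Q := by
    haveI := Fintype.ofFinite Q
    rw [Nat.card_eq_fintype_card, ← Finset.card_univ]
    refine Finset.card_bij (fun u _ => u.1) (fun _ _ => Finset.mem_univ _) ?_ ?_
    · intro u hu v hv h
      obtain ⟨i⟩ := ‹Nonempty ι›
      exact nt i _ _ (hf i u hu v hv 1 (H i).one_mem (by simp [h]))
    · intro q _
      obtain ⟨u, hu, h⟩ := tt.sur q
      exact ⟨u, hu, h⟩
  have := fun i => one_colour (H i) χ Prod.fst U (S i) (st.mem i) (st.lab i) (st.cmp i) tt.sur (hf i)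
  choose Y hY hc2 using this
  refine ⟨Y, hY, ?_⟩
  have h3 := Finset.sum_le_sum (s := Finset.univ) fun i _ => hc2 i
  rw [Finset.sum_add_distrib (f := fun i => (S i).card)] at h3
  rw [← hU]
  omega

end Pool.Agent.P.MP_29956c_gt
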