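import Pool.Agent.P.MP_29956c_gt.Kurosh

namespace Pool.Agent.P.MP_29956c_gt

open scoped Classical
open Monoid

variable {ι : Type*} {A : ι → Type*} [∀ i, Group (A i)]

theorem red_word {i : ι} {γ : CoprodI A}
    (h : Red (fun i => (CoprodI.of : A i →* CoprodI A).range) i γ) :
    ∃ (j : ι) (w : CoprodI.NeWord A i j), w.prod = γ := by
  induction h with
  | @one i g hg h1 =>
    obtain ⟨a, rfl⟩ := hg
    exact ⟨i, CoprodI.NeWord.singleton a (fun h => h1 (by rw [h, map_one])),
      CoprodI.NeWord.prod_singleton _ _⟩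
  | @cons i j g γ hg h1 hij _ ih =>
    obtain ⟨a, rfl⟩ := hg
    obtain ⟨k, w, rfl⟩ := ih
    exact ⟨k, CoprodI.NeWord.append
      (CoprodI.NeWord.singleton a (fun h => h1 (by rw [h, map_one]))) hij w, by simp⟩

theorem nf_coprodI (i : ι) (γ : CoprodI A)
    (h : Red (fun i => (CoprodI.of : A i →* CoprodI A).range) i γ) : γ ≠ 1 := by
  obtain ⟨j, w, rfl⟩ := red_word h
  intro h1
  have hinj : Function.Injective (CoprodI.Word.prod : CoprodI.Word A → CoprodI A) :=
    (CoprodI.Word.equiv (M := A)).symm.injective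
  have h2 : w.toWord = CoprodI.Word.empty := hinj (by rw [CoprodI.Word.prod_empty]; exact h1)
  exact w.toList_ne_nil (congrArg CoprodI.Word.toList h2)

/-- The abelianisation map of a free product. -/
noncomputable def ab (A : ι → Type*) [∀ i, Group (A i)] :
    CoprodI A →* ∀ i, Abelianization (A i) :=
  CoprodI.lift fun i => (MonoidHom.mulSingle (fun i => Abelianization (A i)) i).comp
    Abelianization.of

theorem ab_of (i : ι) (a : A i) :
    ab A (CoprodI.of a) = Pi.mulSingle i (Abelianization.of a) := by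
  simp [ab]

theorem ab_surj [Fintype ι] : Function.Surjective (ab A) := by
  intro x
  have : x ∈ (ab A).range := by
    rw [← Finset.univ_prod_mulSingle x]
    refine Subgroup.prod_mem _ fun i _ => ?_
    obtain ⟨a, ha⟩ := QuotientGroup.mk_surjective (x i)
    exact ⟨CoprodI.of a, by rw [ab_of, ← ha]; rfl⟩
  exact this

theorem ab_ker [Fintype ι] : (ab A).ker = commutator (CoprodI A) := by
  refine le_antisymm ?_ (Abelianization.commutator_subset_ker _)
  let ψ : (∀ i, Abelianization (A i)) →* Abelianization (CoprodI A) :=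
    ∏ i, (Abelianization.map (CoprodI.of : A i →* CoprodI A)).comp (Pi.evalMonoidHom _ i)
  have h : ψ.comp (ab A) = Abelianization.of := by
    ext i a
    simp only [MonoidHom.comp_apply, ab_of, ψ, MonoidHom.finsetProd_apply, Pi.evalMonoidHom_apply]
    rw [Finset.prod_eq_single i]
    · simp
    · intro j _ hj
      rw [Pi.mulSingle_eq_of_ne hj, map_one]
    · simp
  intro x hx
  rw [← Abelianization.ker_of, MonoidHom.mem_ker, ← h, MonoidHom.comp_apply,
    MonoidHom.mem_ker.1 hx, map_one]

theorem range_inf_ker (i : ι) : (CoprodI.of : A i →* CoprodI A).range ⊓ (ab A).ker =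
    (commutator (A i)).map CoprodI.of := by
  ext x
  constructor
  · rintro ⟨⟨a, rfl⟩, h⟩
    refine ⟨a, ?_, rfl⟩
    have h1 : ab A (CoprodI.of a) = 1 := h
    have h2 := congrFun h1 i
    rw [ab_of, Pi.mulSingle_eq_same] at h2
    rw [← Abelianization.ker_of]
    exact h2
  · rintro ⟨a, h, rfl⟩
    refine ⟨⟨a, rfl⟩, ?_⟩
    rw [← Abelianization.ker_of] at h
    have h1 : Abelianization.of a = 1 := h
    change ab A (CoprodI.of a) = 1
    rw [ab_of, h1, Pi.mulSingle_one]

theorem card_map (i : ι) : Nat.card ((CoprodI.of : A i →* CoprodI A).range.map (ab A)) =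
    Nat.card (Abelianization (A i)) := by
  have h : (CoprodI.of : A i →* CoprodI A).range.map (ab A) =
      (MonoidHom.mulSingle (fun i => Abelianization (A i)) i).range := by
    ext x
    constructor
    · rintro ⟨_, ⟨a, rfl⟩, rfl⟩
      exact ⟨Abelianization.of a, by rw [ab_of]; rfl⟩
    · rintro ⟨y, rfl⟩
      obtain ⟨a, ha⟩ := QuotientGroup.mk_surjective y
      exact ⟨CoprodI.of a, ⟨a, rfl⟩, by rw [ab_of, ← ha]; rfl⟩
  rw [h]
  exact (Nat.card_congr (MonoidHom.ofInjective (Pi.mulSingle_injective (M := fun i =>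
    Abelianization (A i)) i)).toEquiv).symm

theorem gen_top : ⨆ i, (CoprodI.of : A i →* CoprodI A).range = ⊤ := by
  rw [eq_top_iff]
  intro x _
  induction x using CoprodI.induction_on with
  | one => exact Subgroup.one_mem _
  | of i a => exact Subgroup.mem_iSup_of_mem i ⟨a, rfl⟩
  | mul x y hx hy => exact Subgroup.mul_mem _ (hx trivial) (hy trivial)

/-- The inequality for a free product with finite abelianisation. -/
theorem coprod_bound [Fintype ι] [Nonempty ι] (N : ℕ) (hN : N ≠ 0)
    (hc : (commutator (CoprodI A)).index = N) (X : Finset (CoprodI A))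
    (hX : Subgroup.closure (X : Set (CoprodI A)) = commutator (CoprodI A)) :
    ∏ i, Nat.card (Abelianization (A i)) = N ∧
    ∃ Y : ∀ i, Finset (A i), (∀ i, Subgroup.closure (Y i : Set (A i)) = commutator (A i)) ∧
      ∑ i, (N / Nat.card (Abelianization (A i)) * (Y i).card + N) + 1 ≤
        X.card + N + ∑ i, N / Nat.card (Abelianization (A i)) := by
  have hQ : Nat.card (∀ i, Abelianization (A i)) = N := by
    rw [← hc, ← ab_ker, Subgroup.index_ker, MonoidHom.range_eq_top.2 ab_surj, Subgroup.card_top]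
  haveI : Finite (∀ i, Abelianization (A i)) := Nat.finite_of_card_ne_zero (hQ ▸ hN)
  refine ⟨by rw [← hQ, Nat.card_pi], ?_⟩
  obtain ⟨Y, hY, hle⟩ := kurosh_grushko (fun i => (CoprodI.of : A i →* CoprodI A).range)
    nf_coprodI gen_top (ab A) ab_surj X (hX.trans ab_ker.symm)
  have hidx : ∀ i, ((CoprodI.of : A i →* CoprodI A).range.map (ab A)).index =
      N / Nat.card (Abelianization (A i)) := by
    intro i
    have h1 := Subgroup.card_mul_index ((CoprodI.of : A i →* CoprodI A).range.map (ab A))
    rw [card_map, hQ] at h1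
    have h2 : Nat.card (Abelianization (A i)) ≠ 0 := fun h => hN (by rw [← h1, h, zero_mul])
    rw [← h1, Nat.mul_div_cancel_left _ (Nat.pos_of_ne_zero h2)]
  have hinj : ∀ i, Function.Injective (CoprodI.of : A i →* CoprodI A) :=
    fun i => CoprodI.of_injective i
  refine ⟨fun i => (Y i).preimage CoprodI.of (hinj i).injOn, fun i => ?_, ?_⟩
  · apply Subgroup.map_injective (hinj i)
    rw [← range_inf_ker, ← hY, MonoidHom.map_closure, Finset.coe_preimage,
      Set.image_preimage_eq_of_subset]
    intro y hy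
    have : y ∈ Subgroup.closure (Y i : Set (CoprodI A)) := Subgroup.subset_closure hy
    rw [hY] at this
    exact this.1
  · simp only [hidx, hQ] at hle
    refine le_trans (Nat.add_le_add_right (Finset.sum_le_sum fun i _ => ?_) 1) hle
    refine Nat.add_le_add_right (Nat.mul_le_mul_left _ ?_) _
    exact Finset.card_le_card_of_injOn CoprodI.of (fun a ha => Finset.mem_preimage.1 ha)
      (hinj i).injOn

theorem surgery_index {G : Type*} [Group G] (μ l : G) (ε : G →* Multiplicative ℤ)
    (hμ : ε μ = Multiplicative.ofAdd 1) (hε : ε.ker = commutator G) (hl : l ∈ commutator G)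
    (r : ℤ) {Γ : Type*} [Group Γ] (π : G →* Γ) (hπ : Function.Surjective π)
    (hk : π.ker = Subgroup.normalClosure {μ ^ r * l}) : (commutator Γ).index = r.natAbs := by
  have hes : Function.Surjective ε := by
    intro n
    refine ⟨μ ^ n.toAdd, ?_⟩
    rw [map_zpow, hμ, ← ofAdd_zsmul]; simp
  have h1 : (commutator G).map π = commutator Γ := by
    rw [map_commutator_eq, MonoidHom.range_eq_top.2 hπ]; rfl
  let Z : Subgroup (Multiplicative ℤ) := AddSubgroup.toSubgroup (AddSubgroup.zmultiples r)
  have hel : ε (μ ^ r * l) = Multiplicative.ofAdd r := by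
    rw [← hε] at hl
    rw [map_mul, MonoidHom.mem_ker.1 hl, mul_one, map_zpow, hμ, ← ofAdd_zsmul]; simp
  have h2 : (commutator Γ).comap π = Z.comap ε := by
    rw [← h1, Subgroup.comap_map_eq, hk]
    refine le_antisymm (sup_le ?_ ?_) ?_
    · rw [← hε]; exact Subgroup.ker_le_comap _ _
    · refine Subgroup.normalClosure_le_normal ?_
      rintro _ rfl
      change ε _ ∈ Z
      rw [hel]
      exact AddSubgroup.mem_zmultiples r
    · intro x hx
      obtain ⟨k, hk⟩ : ∃ k : ℤ, k • r = (ε x).toAdd := hx
      have h3 : x * ((μ ^ r * l) ^ k)⁻¹ ∈ commutator G := by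
        rw [← hε, MonoidHom.mem_ker, map_mul, map_inv, map_zpow, hel, ← ofAdd_zsmul, hk]; simp
      have h4 : (μ ^ r * l) ^ k ∈ Subgroup.normalClosure ({μ ^ r * l} : Set G) :=
        Subgroup.zpow_mem _ (Subgroup.subset_normalClosure (Set.mem_singleton _)) _
      have h5 := Subgroup.mul_mem_sup h3 h4
      rwa [inv_mul_cancel_right] at h5
  rw [← Subgroup.index_comap_of_surjective _ hπ, h2, Subgroup.index_comap_of_surjective _ hes,
    AddSubgroup.index_toSubgroup, Int.index_zmultiples]

theorem main {G : Type*} [Group G] (μ l : G) (ε : G →* Multiplicative ℤ)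
    (hμ : ε μ = Multiplicative.ofAdd 1) (hε : ε.ker = commutator G) (hl : l ∈ commutator G)
    (X : Finset G) (hX : Subgroup.closure (X : Set G) = commutator G) (r : ℤ) (hr : r ≠ 0)
    [Fintype ι] [Nonempty ι]
    (e : G ⧸ Subgroup.normalClosure {μ ^ r * l} ≃* CoprodI A) :
    ∏ i, Nat.card (Abelianization (A i)) = r.natAbs ∧
    ∃ Y : ∀ i, Finset (A i), (∀ i, Subgroup.closure (Y i : Set (A i)) = commutator (A i)) ∧
      ∑ i, (r.natAbs / Nat.card (Abelianization (A i)) * (Y i).card + r.natAbs) + 1 ≤
        X.card + r.natAbs + ∑ i, r.natAbs / Nat.card (Abelianization (A i)) := by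
  let π : G →* CoprodI A := e.toMonoidHom.comp (QuotientGroup.mk' _)
  have hπ : Function.Surjective π := e.surjective.comp (QuotientGroup.mk'_surjective _)
  have hk : π.ker = Subgroup.normalClosure {μ ^ r * l} := by
    ext x
    simp [π, MonoidHom.mem_ker]
  obtain ⟨h1, Y, hY, hle⟩ := coprod_bound r.natAbs (Int.natAbs_ne_zero.2 hr)
    (surgery_index μ l ε hμ hε hl r π hπ hk) (X.image π) (by
      rw [Finset.coe_image, ← MonoidHom.map_closure, hX, map_commutator_eq,
        MonoidHom.range_eq_top.2 hπ]; rfl)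
  refine ⟨h1, Y, hY, hle.trans ?_⟩
  have := Finset.card_image_le (s := X) (f := π)
  omega

end Pool.Agent.P.MP_29956c_gt
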